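import Pool.Agent.Helper25.FB.Spec

/-!
# FB part COL: the columns of the matrix
-/

set_option autoImplicit false

namespace Pool.Agent.Helper25.FB

open Filter Topology

section
variable {P : Pol} {m : ℕ}

/-- `conj ∘ V ∘ conj` -/
noncomputable def colU (E : Ends P m) (k : Fin m) (τ : ℂ) : ℂ :=
  (starRingEnd ℂ) (E.V k ((starRingEnd ℂ) τ))

theorem colU_diff (E : Ends P m) (k : Fin m) :
    DifferentiableOn ℂ (colU E k) (Metric.ball 0 E.r) := by
  intro τ hτ
  have h1 : (starRingEnd ℂ) τ ∈ Metric.ball (0 : ℂ) E.r := by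
    rw [mem_ball_zero_iff] at hτ ⊢
    rwa [RCLike.norm_conj]
  have h2 : DifferentiableAt ℂ (E.V k) ((starRingEnd ℂ) τ) :=
    (E.hol k _ h1).differentiableAt (Metric.isOpen_ball.mem_nhds h1)
  exact (differentiableAt_conj_conj_iff.2 h2).differentiableWithinAt

theorem colU_bd (E : Ends P m) (k : Fin m) : ∀ τ ∈ Metric.ball (0 : ℂ) E.r,
    ‖colU E k τ‖ ≤ E.C := by
  intro τ hτ
  unfold colU
  rw [RCLike.norm_conj]
  apply E.bd
  rw [mem_ball_zero_iff] at hτ ⊢
  rwa [RCLike.norm_conj]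

theorem col_sum (E : Ends P m) (j k : Fin m) (s t : ℂ) :
    (∑ a, E.w j s a * E.z k t a) =
      (E.p j * (starRingEnd ℂ) (E.p k) + E.q j * (starRingEnd ℂ) (E.q k)) * (t * s)
      + s * colU E k t⁻¹ * (E.q j * E.p k - E.p j * E.q k)
      + t * E.V j s⁻¹ * ((starRingEnd ℂ) (E.p j) * (starRingEnd ℂ) (E.q k) -
          (starRingEnd ℂ) (E.q j) * (starRingEnd ℂ) (E.p k))
      + E.V j s⁻¹ * colU E k t⁻¹ *
          ((starRingEnd ℂ) (E.q j) * E.q k + (starRingEnd ℂ) (E.p j) * E.p k) := by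
  simp only [colU, Fin.sum_univ_two, Ends.z, Ends.w, ww, Matrix.cons_val_zero,
    Matrix.cons_val_one, map_sub, map_add, map_mul, Complex.conj_conj, map_inv₀,
    Matrix.cons_val_fin_one]
  ring

theorem col_lagrange (a b c d : ℂ) (h1 : ‖a‖ ^ 2 + ‖b‖ ^ 2 = 1) (h2 : ‖c‖ ^ 2 + ‖d‖ ^ 2 = 1) :
    ‖a * (starRingEnd ℂ) c + b * (starRingEnd ℂ) d‖ ^ 2 + ‖a * d - b * c‖ ^ 2 = 1 := by
  have h3 : ‖a * (starRingEnd ℂ) c + b * (starRingEnd ℂ) d‖ ^ 2 + ‖a * d - b * c‖ ^ 2 =
      (‖a‖ ^ 2 + ‖b‖ ^ 2) * (‖c‖ ^ 2 + ‖d‖ ^ 2) := by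
    simp only [← Complex.normSq_eq_norm_sq, Complex.normSq_apply, Complex.add_re, Complex.add_im,
      Complex.sub_re, Complex.sub_im, Complex.mul_re, Complex.mul_im, Complex.conj_re,
      Complex.conj_im]
    ring
  rw [h3, h1, h2, mul_one]

theorem col_diag_sum (E : Ends P m) (j : Fin m) (s t : ℂ) :
    (∑ a, E.w j s a * E.z j t a) = t * s + E.V j s⁻¹ * colU E j t⁻¹ := by
  rw [col_sum]
  have h1 : E.p j * (starRingEnd ℂ) (E.p j) + E.q j * (starRingEnd ℂ) (E.q j) = 1 := by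
    rw [Complex.mul_conj, Complex.mul_conj, Complex.normSq_eq_norm_sq, Complex.normSq_eq_norm_sq]
    have := E.unit j
    exact_mod_cast this
  have h2 : (starRingEnd ℂ) (E.q j) * E.q j + (starRingEnd ℂ) (E.p j) * E.p j = 1 := by
    rw [← h1]; ring
  rw [h1, h2]
  ring

/-- the kernel of the block `(k, j)` -/
noncomputable def colH (E : Ends P m) (k j : Fin m) (t s : ℂ) : ℂ :=
  Complex.exp (∑ a, E.w j s a * E.z k t a)

theorem col_inv_mem (E : Ends P m) (s : ℂ) (hs : E.r⁻¹ < ‖s‖) :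
    s⁻¹ ∈ Metric.ball (0 : ℂ) E.r := by
  rw [mem_ball_zero_iff, norm_inv]
  exact inv_lt_of_inv_lt₀ E.r0 hs

theorem col_ne (E : Ends P m) (s : ℂ) (hs : E.r⁻¹ < ‖s‖) : s ≠ 0 := by
  intro h
  rw [h, norm_zero] at hs
  have := inv_pos.2 E.r0
  linarith

theorem col_V_diff (E : Ends P m) (F : ℂ → ℂ)
    (hF : DifferentiableOn ℂ F (Metric.ball 0 E.r)) :
    DifferentiableOn ℂ (fun s => F s⁻¹) {s | E.r⁻¹ < ‖s‖} := by
  intro s hs
  have h1 := col_inv_mem E s hs
  have h2 : DifferentiableAt ℂ F s⁻¹ := (hF _ h1).differentiableAt (Metric.isOpen_ball.mem_nhds h1)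
  have h3 : DifferentiableAt ℂ (fun s : ℂ => s⁻¹) s := differentiableAt_inv (col_ne E s hs)
  exact (h2.comp s h3).differentiableWithinAt

theorem col_offdiag (hOFF : S_OFF) (E : Ends P m) (k j : Fin m) (hkj : k ≠ j) :
    ∃ B₀ : ℝ, ∀ B ≥ B₀, (∀ n, Summable fun l => ‖Mx B (colH E k j) l n‖) ∧
      Tendsto (fun n => ∑' l, ‖Mx B (colH E k j) l n‖) atTop (𝓝 0) := by
  set a : ℝ := ‖E.p j * (starRingEnd ℂ) (E.p k) + E.q j * (starRingEnd ℂ) (E.q k)‖ with ha
  have hlag := col_lagrange (E.p j) (E.q j) (E.p k) (E.q k) (E.unit j) (E.unit k)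
  have hpos : 0 < ‖E.p j * E.q k - E.q j * E.p k‖ := by
    rw [norm_pos_iff, sub_ne_zero]
    intro h
    exact E.slope j k (Ne.symm hkj) (by rw [h]; ring)
  have ha0 : 0 ≤ a := norm_nonneg _
  have ha1 : a < 1 := by
    have : a ^ 2 < 1 := by rw [← ha] at hlag; nlinarith
    nlinarith
  have hb1 : ‖E.p j * E.q k - E.q j * E.p k‖ ≤ 1 := by
    have : ‖E.p j * E.q k - E.q j * E.p k‖ ^ 2 ≤ 1 := by rw [← ha] at hlag; nlinarith
    nlinarith
  have hC0 : 0 ≤ E.C := le_trans (norm_nonneg _)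
    (E.bd j 0 (Metric.mem_ball_self E.r0))
  refine hOFF (colH E k j) E.r⁻¹ a (E.C + E.C ^ 2) (inv_pos.2 E.r0) ha0 ha1 (by positivity)
    ?_ ?_ ?_ ?_
  · intro t
    unfold colH
    simp only [col_sum]
    have h1 := col_V_diff E (E.V j) (E.hol j)
    have h2 : DifferentiableOn ℂ (fun s : ℂ => s) {s | E.r⁻¹ < ‖s‖} := differentiableOn_id
    apply DifferentiableOn.cexp
    fun_prop
  · intro s hs
    unfold colH
    simp only [col_sum]
    have h1 := col_V_diff E (colU E k) (colU_diff E k)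
    apply DifferentiableOn.cexp
    fun_prop
  · unfold colH
    simp only [col_sum]
    have h1 : ContinuousOn (fun u : ℂ × ℂ => E.V j u.2⁻¹)
        {u : ℂ × ℂ | E.r⁻¹ < ‖u.1‖ ∧ E.r⁻¹ < ‖u.2‖} := by
      have h3 := (col_V_diff E (E.V j) (E.hol j)).continuousOn
      exact h3.comp continuous_snd.continuousOn (fun u hu => hu.2)
    have h2 : ContinuousOn (fun u : ℂ × ℂ => colU E k u.1⁻¹)
        {u : ℂ × ℂ | E.r⁻¹ < ‖u.1‖ ∧ E.r⁻¹ < ‖u.2‖} := by
      have h3 := (col_V_diff E (colU E k) (colU_diff E k)).continuousOn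
      exact h3.comp continuous_fst.continuousOn (fun u hu => hu.1)
    apply ContinuousOn.cexp
    fun_prop
  · intro t s ht hs
    unfold colH
    rw [Complex.norm_exp]
    apply Real.exp_le_exp.2
    refine le_trans (Complex.re_le_norm _) ?_
    rw [col_sum]
    have hV : ‖E.V j s⁻¹‖ ≤ E.C := E.bd j _ (col_inv_mem E s hs)
    have hU : ‖colU E k t⁻¹‖ ≤ E.C := colU_bd E k _ (col_inv_mem E t ht)
    have e1 : ‖(E.p j * (starRingEnd ℂ) (E.p k) + E.q j * (starRingEnd ℂ) (E.q k)) * (t * s)‖ ≤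
        a * ‖t‖ * ‖s‖ := by
      rw [norm_mul, norm_mul, ← ha]; linarith
    have e2 : ‖s * colU E k t⁻¹ * (E.q j * E.p k - E.p j * E.q k)‖ ≤ E.C * ‖s‖ := by
      rw [norm_mul, norm_mul, norm_sub_rev]
      have : ‖s‖ * ‖colU E k t⁻¹‖ * ‖E.p j * E.q k - E.q j * E.p k‖ ≤ ‖s‖ * E.C * 1 := by
        gcongr
      linarith
    have e3 : ‖t * E.V j s⁻¹ * ((starRingEnd ℂ) (E.p j) * (starRingEnd ℂ) (E.q k) -
        (starRingEnd ℂ) (E.q j) * (starRingEnd ℂ) (E.p k))‖ ≤ E.C * ‖t‖ := by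
      rw [norm_mul, norm_mul, ← map_mul, ← map_mul, ← map_sub, RCLike.norm_conj]
      have : ‖t‖ * ‖E.V j s⁻¹‖ * ‖E.p j * E.q k - E.q j * E.p k‖ ≤ ‖t‖ * E.C * 1 := by
        gcongr
      linarith
    have e4 : ‖E.V j s⁻¹ * colU E k t⁻¹ *
        ((starRingEnd ℂ) (E.q j) * E.q k + (starRingEnd ℂ) (E.p j) * E.p k)‖ ≤ E.C ^ 2 := by
      have h5 : (starRingEnd ℂ) (E.q j) * E.q k + (starRingEnd ℂ) (E.p j) * E.p k =
          (starRingEnd ℂ) (E.p j * (starRingEnd ℂ) (E.p k) + E.q j * (starRingEnd ℂ) (E.q k)) := by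
        simp only [map_add, map_mul, Complex.conj_conj]
        ring
      rw [norm_mul, norm_mul, h5, RCLike.norm_conj, ← ha]
      have : ‖E.V j s⁻¹‖ * ‖colU E k t⁻¹‖ * a ≤ E.C * E.C * 1 := by
        gcongr
      nlinarith
    have hn := norm_add_le ((E.p j * (starRingEnd ℂ) (E.p k) + E.q j * (starRingEnd ℂ) (E.q k)) *
      (t * s) + s * colU E k t⁻¹ * (E.q j * E.p k - E.p j * E.q k)
      + t * E.V j s⁻¹ * ((starRingEnd ℂ) (E.p j) * (starRingEnd ℂ) (E.q k) -
          (starRingEnd ℂ) (E.q j) * (starRingEnd ℂ) (E.p k)))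
      (E.V j s⁻¹ * colU E k t⁻¹ *
        ((starRingEnd ℂ) (E.q j) * E.q k + (starRingEnd ℂ) (E.p j) * E.p k))
    have hn2 := norm_add_le ((E.p j * (starRingEnd ℂ) (E.p k) + E.q j * (starRingEnd ℂ) (E.q k)) *
      (t * s) + s * colU E k t⁻¹ * (E.q j * E.p k - E.p j * E.q k))
      (t * E.V j s⁻¹ * ((starRingEnd ℂ) (E.p j) * (starRingEnd ℂ) (E.q k) -
          (starRingEnd ℂ) (E.q j) * (starRingEnd ℂ) (E.p k)))
    have hn3 := norm_add_le ((E.p j * (starRingEnd ℂ) (E.p k) + E.q j * (starRingEnd ℂ) (E.q k)) *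
      (t * s)) (s * colU E k t⁻¹ * (E.q j * E.p k - E.p j * E.q k))
    have h6 : 0 ≤ E.C ^ 2 * ‖t‖ := by positivity
    have h7 : 0 ≤ E.C ^ 2 * ‖s‖ := by positivity
    nlinarith

theorem Am_eq (E : Ends P m) (B : ℝ) (k i : Fin m × ℕ) :
    Am E B k i = Mx B (colH E k.1 i.1) k.2 i.2 := rfl

theorem col_diag (hDIAG : S_DIAG) (E : Ends P m) (j : Fin m) :
    ∃ B₀ : ℝ, ∀ B ≥ B₀, (∀ n, Summable fun l => ‖Mx B (colH E j j) l n‖) ∧
      ∃ N, ∀ n ≥ N, ∑' l, ‖Mx B (colH E j j) l n - if l = n then dd E j else 0‖ ≤ 1 / 4 := by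
  obtain ⟨B₀, hB₀⟩ := hDIAG (colU E j) (E.V j) E.r E.C E.r0 (colU_diff E j) (E.hol j)
    (colU_bd E j) (E.bd j)
  have h1 : colH E j j = fun t s => Complex.exp (t * s + E.V j s⁻¹ * colU E j t⁻¹) := by
    funext t s
    unfold colH
    rw [col_diag_sum]
  have h2 : dd E j = Complex.exp (E.V j 0 * colU E j 0) := by
    unfold dd colU
    rw [map_zero]
  rw [h1, h2]
  exact ⟨B₀, hB₀⟩

end

theorem col_thm (hOFF : S_OFF) (hDIAG : S_DIAG) : S_COL := by
  intro P m E
  classical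
  choose Bo hBo using fun (k j : Fin m) (h : k ≠ j) => col_offdiag hOFF E k j h
  choose Bd hBd using fun j : Fin m => col_diag hDIAG E j
  let Bk : Fin m → Fin m → ℝ := fun k j => if h : k ≠ j then |Bo k j h| else 0
  refine ⟨∑ k, ∑ j, Bk k j + ∑ j, |Bd j|, ?_⟩
  intro B hB
  have hBk0 : ∀ k j, 0 ≤ Bk k j := by
    intro k j
    simp only [Bk]
    split_ifs
    · exact abs_nonneg _
    · exact le_rfl
  have hle1 : ∀ k j (h : k ≠ j), Bo k j h ≤ B := by
    intro k j h
    have e1 : Bk k j = |Bo k j h| := by simp only [Bk]; rw [dif_pos h]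
    have e2 : Bk k j ≤ ∑ j, Bk k j :=
      Finset.single_le_sum (f := fun j => Bk k j) (fun i _ => hBk0 k i) (Finset.mem_univ j)
    have e3 : ∑ j, Bk k j ≤ ∑ k, ∑ j, Bk k j :=
      Finset.single_le_sum (f := fun k => ∑ j, Bk k j)
        (fun i _ => Finset.sum_nonneg fun j _ => hBk0 i j) (Finset.mem_univ k)
    have e4 : 0 ≤ ∑ j, |Bd j| := Finset.sum_nonneg fun j _ => abs_nonneg _
    have e5 := le_abs_self (Bo k j h)
    linarith
  have hle2 : ∀ j, Bd j ≤ B := by
    intro j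
    have e2 : |Bd j| ≤ ∑ j, |Bd j| :=
      Finset.single_le_sum (f := fun j => |Bd j|) (fun i _ => abs_nonneg _) (Finset.mem_univ j)
    have e3 : 0 ≤ ∑ k, ∑ j, Bk k j :=
      Finset.sum_nonneg fun k _ => Finset.sum_nonneg fun j _ => hBk0 k j
    have e5 := le_abs_self (Bd j)
    linarith
  have hsl : ∀ (k j : Fin m) (n : ℕ), Summable fun l => ‖Mx B (colH E k j) l n‖ := by
    intro k j n
    by_cases h : k = j
    · subst h
      exact (hBd k B (hle2 k)).1 n
    · exact (hBo k j h B (hle1 k j h)).1 n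
  have hsummable : ∀ (f : Fin m × ℕ → ℝ), (∀ x, 0 ≤ f x) → (∀ k, Summable fun l => f (k, l)) →
      Summable f := by
    intro f h0 h1
    rw [summable_prod_of_nonneg h0]
    exact ⟨h1, summable_of_finite_support (Set.toFinite _)⟩
  refine ⟨?_, ?_⟩
  · intro i
    apply hsummable _ (fun x => norm_nonneg _)
    intro k
    exact hsl k i.1 i.2
  · -- the set `J`
    rcases Nat.eq_zero_or_pos m with hm | hm
    · subst hm
      exact ⟨∅, fun i _ => i.1.elim0⟩
    have hmR : (0 : ℝ) < m := by exact_mod_cast hm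
    have hN1 : ∀ (k j : Fin m), k ≠ j → ∃ N : ℕ, ∀ n ≥ N,
        ∑' l, ‖Mx B (colH E k j) l n‖ ≤ 1 / (4 * m) := by
      intro k j h
      have ht := (hBo k j h B (hle1 k j h)).2
      have := ht.eventually (gt_mem_nhds (show (0 : ℝ) < 1 / (4 * m) by positivity))
      obtain ⟨N, hN⟩ := eventually_atTop.1 this
      exact ⟨N, fun n hn => (hN n hn).le⟩
    choose N1 hN1 using hN1
    choose N2 hN2 using fun j : Fin m => (hBd j B (hle2 j)).2
    let Nk : Fin m → Fin m → ℕ := fun k j => if h : k ≠ j then N1 k j h else 0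
    let N : ℕ := ∑ k, ∑ j, Nk k j + ∑ j, N2 j
    refine ⟨(Finset.univ : Finset (Fin m)) ×ˢ Finset.range N, ?_⟩
    rintro ⟨j, n⟩ hi
    have hn : N ≤ n := by
      by_contra hc
      push Not at hc
      exact hi (Finset.mem_product.2 ⟨Finset.mem_univ _, Finset.mem_range.2 hc⟩)
    have hn1 : ∀ k (h : k ≠ j), N1 k j h ≤ n := by
      intro k h
      have e1 : Nk k j = N1 k j h := by simp only [Nk]; rw [dif_pos h]
      have e2 : Nk k j ≤ ∑ j, Nk k j :=
        Finset.single_le_sum (f := fun j => Nk k j) (fun i _ => Nat.zero_le _) (Finset.mem_univ j)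
      have e3 : ∑ j, Nk k j ≤ ∑ k, ∑ j, Nk k j :=
        Finset.single_le_sum (f := fun k => ∑ j, Nk k j) (fun i _ => Nat.zero_le _)
          (Finset.mem_univ k)
      omega
    have hn2 : N2 j ≤ n := by
      have e2 : N2 j ≤ ∑ j, N2 j :=
        Finset.single_le_sum (f := fun j => N2 j) (fun i _ => Nat.zero_le _) (Finset.mem_univ j)
      omega
    have hfs : ∀ k : Fin m, Summable fun l =>
        ‖Am E B (k, l) (j, n) - if ((k, l) : Fin m × ℕ) = (j, n) then dd E j else 0‖ := by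
      intro k
      have h1 := hsl k j n
      have h2 : Summable fun l : ℕ =>
          ‖(if ((k, l) : Fin m × ℕ) = (j, n) then dd E j else 0)‖ := by
        apply summable_of_finite_support
        refine (Set.finite_singleton n).subset ?_
        intro l hl
        rw [Function.mem_support] at hl
        by_contra hc
        apply hl
        rw [if_neg, norm_zero]
        intro h
        exact hc (Prod.mk.inj h).2
      refine Summable.of_nonneg_of_le (fun l => norm_nonneg _) (fun l => norm_sub_le _ _)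
        (h1.add h2)
    have htot : ∑' k : Fin m × ℕ, ‖Am E B k (j, n) - if k = (j, n) then dd E j else 0‖ =
        ∑ k : Fin m, ∑' l : ℕ,
          ‖Am E B (k, l) (j, n) - if ((k, l) : Fin m × ℕ) = (j, n) then dd E j else 0‖ := by
      rw [Summable.tsum_prod' (hsummable _ (fun x => norm_nonneg _) hfs) hfs, tsum_fintype]
    have hterm : ∀ k : Fin m, ∑' l : ℕ,
        ‖Am E B (k, l) (j, n) - if ((k, l) : Fin m × ℕ) = (j, n) then dd E j else 0‖ ≤
        (if k = j then 1 / 4 else 0) + 1 / (4 * m) := by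
      intro k
      by_cases h : k = j
      · subst h
        rw [if_pos rfl]
        have e1 : ∀ l : ℕ, ‖Am E B (k, l) (k, n) - if ((k, l) : Fin m × ℕ) = (k, n) then dd E k
            else 0‖ = ‖Mx B (colH E k k) l n - if l = n then dd E k else 0‖ := by
          intro l
          have : (((k, l) : Fin m × ℕ) = (k, n)) ↔ l = n := by
            constructor
            · intro h; exact (Prod.mk.inj h).2
            · rintro rfl; rfl
          simp only [this, Am_eq]
        simp only [e1]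
        have e2 := hN2 k n hn2
        have e3 : (0 : ℝ) ≤ 1 / (4 * m) := by positivity
        linarith
      · rw [if_neg h]
        have e1 : ∀ l : ℕ, ‖Am E B (k, l) (j, n) - if ((k, l) : Fin m × ℕ) = (j, n) then dd E j
            else 0‖ = ‖Mx B (colH E k j) l n‖ := by
          intro l
          rw [if_neg (fun h' => h (Prod.mk.inj h').1), sub_zero, Am_eq]
        simp only [e1]
        have e2 := hN1 k j h n (hn1 k h)
        linarith
    show ∑' k : Fin m × ℕ, ‖Am E B k (j, n) - if k = (j, n) then dd E j else 0‖ ≤ 1 / 2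
    rw [htot]
    refine le_trans (Finset.sum_le_sum fun k _ => hterm k) ?_
    rw [Finset.sum_add_distrib, Finset.sum_ite_eq' Finset.univ j, if_pos (Finset.mem_univ j),
      Finset.sum_const, Finset.card_univ, Fintype.card_fin, nsmul_eq_mul]
    have : (m : ℝ) * (1 / (4 * m)) = 1 / 4 := by field_simp
    rw [this]
    norm_num

end Pool.Agent.Helper25.FB
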