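import Mathlib

/-!
# Differentiation of integrals depending holomorphically on a parameter
-/

set_option autoImplicit false

namespace Pool.Agent.Helper6.FB

open Filter Topology Set

/-- An integral over a compact interval which depends holomorphically on a parameter. -/
theorem diff_param (U : Set ℂ) (hU : IsOpen U) (a b : ℝ) (K : ℂ → ℝ → ℂ)
    (hK : ContinuousOn (fun u : ℂ × ℝ => K u.1 u.2) (U ×ˢ Set.univ))
    (hd : ∀ θ, DifferentiableOn ℂ (fun t => K t θ) U) :
    DifferentiableOn ℂ (fun t => ∫ θ in a..b, K t θ) U := by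
  intro t0 ht0
  obtain ⟨ε, hε, hball⟩ := Metric.isOpen_iff.1 hU t0 ht0
  set r : ℝ := ε / 4 with hr
  have hr0 : 0 < r := by positivity
  have hsub : Metric.closedBall t0 (2 * r) ⊆ U := by
    intro z hz
    apply hball
    rw [Metric.mem_closedBall] at hz
    rw [Metric.mem_ball]
    linarith
  have hcs : ∀ t ∈ U, Continuous (fun θ => K t θ) := by
    intro t ht
    have h1 : ContinuousOn (fun θ : ℝ => (t, θ)) Set.univ := by fun_prop
    have h2 := hK.comp h1 (fun θ _ => ⟨ht, Set.mem_univ _⟩)
    exact continuousOn_univ.1 h2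
  obtain ⟨M, hM⟩ := ((isCompact_closedBall t0 (2 * r)).prod
    (isCompact_uIcc (a := a) (b := b))).exists_bound_of_continuousOn
      (hK.mono (Set.prod_mono hsub (Set.subset_univ _)))
  have hin : ∀ t ∈ Metric.ball t0 r, Metric.closedBall t r ⊆ Metric.closedBall t0 (2 * r) := by
    intro t ht z hz
    rw [Metric.mem_ball] at ht
    rw [Metric.mem_closedBall] at hz ⊢
    have := dist_triangle z t t0
    linarith
  have hder : ∀ θ, ∀ t ∈ Metric.ball t0 r,
      HasDerivAt (fun t => K t θ) (deriv (fun t => K t θ) t) t := by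
    intro θ t ht
    have htU : t ∈ U := hsub (hin t ht (Metric.mem_closedBall_self hr0.le))
    exact ((hd θ t htU).differentiableAt (hU.mem_nhds htU)).hasDerivAt
  have key := (intervalIntegral.hasDerivAt_integral_of_dominated_loc_of_deriv_le
    (μ := MeasureTheory.volume) (a := a) (b := b) (F := K)
    (F' := fun t θ => deriv (fun t => K t θ) t) (x₀ := t0) (s := Metric.ball t0 r)
    (bound := fun _ => M / r) (Metric.ball_mem_nhds t0 hr0) ?_ ?_ ?_ ?_ ?_ ?_).2
  · exact key.differentiableAt.differentiableWithinAt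
  · filter_upwards [hU.mem_nhds ht0] with t ht
    exact (hcs t ht).aestronglyMeasurable
  · exact (hcs t0 ht0).intervalIntegrable _ _
  · -- measurability of the derivative
    have hseq : ∀ n : ℕ, t0 + ((r / (n + 1) : ℝ) : ℂ) ∈ U := by
      intro n
      apply hsub
      rw [Metric.mem_closedBall, dist_eq_norm]
      have h1 : t0 + ((r / (n + 1) : ℝ) : ℂ) - t0 = ((r / (n + 1) : ℝ) : ℂ) := by ring
      rw [h1, Complex.norm_real, Real.norm_eq_abs, abs_of_nonneg (by positivity)]
      have h2 : r / ((n : ℝ) + 1) ≤ r := div_le_self hr0.le (by linarith [n.cast_nonneg (α := ℝ)])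
      linarith
    refine aestronglyMeasurable_of_tendsto_ae (atTop : Filter ℕ)
      (f := fun (n : ℕ) (θ : ℝ) => (((r / (n + 1) : ℝ) : ℂ))⁻¹ •
        (K (t0 + ((r / (n + 1) : ℝ) : ℂ)) θ - K t0 θ)) ?_ ?_
    · intro n
      have hc : Continuous (fun θ : ℝ => (((r / (n + 1) : ℝ) : ℂ))⁻¹ •
          (K (t0 + ((r / (n + 1) : ℝ) : ℂ)) θ - K t0 θ)) := by
        have h1 := hcs _ (hseq n)
        have h2 := hcs t0 ht0
        fun_prop
      exact hc.aestronglyMeasurable
    · refine Filter.Eventually.of_forall fun θ => ?_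
      have h1 := (hder θ t0 (Metric.mem_ball_self hr0)).tendsto_slope_zero
      have h2 : Tendsto (fun n : ℕ => (((r / (n + 1) : ℝ) : ℂ))) atTop (𝓝[≠] 0) := by
        rw [tendsto_nhdsWithin_iff]
        constructor
        · have h3 : Tendsto (fun n : ℕ => r * (1 / ((n : ℝ) + 1))) atTop (𝓝 (r * 0)) :=
            tendsto_one_div_add_atTop_nhds_zero_nat.const_mul r
          have h4 : Tendsto (fun n : ℕ => r / ((n : ℝ) + 1)) atTop (𝓝 0) := by
            simpa [div_eq_mul_inv] using h3
          have h5 := (Complex.continuous_ofReal.tendsto 0).comp h4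
          rw [Complex.ofReal_zero] at h5
          exact h5
        · refine Filter.Eventually.of_forall fun n => ?_
          have : (r / ((n : ℝ) + 1)) ≠ 0 := by positivity
          exact Complex.ofReal_ne_zero.2 this
      exact h1.comp h2
  · refine Filter.Eventually.of_forall fun θ hθ t ht => ?_
    have hθ' : θ ∈ Set.uIcc a b := Set.uIoc_subset_uIcc hθ
    refine Complex.norm_deriv_le_of_forall_mem_sphere_norm_le hr0 ?_ ?_
    · apply DifferentiableOn.diffContOnCl
      rw [closure_ball t hr0.ne']
      exact (hd θ).mono ((hin t ht).trans hsub)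
    · intro z hz
      exact hM (z, θ) ⟨hin t ht (Metric.sphere_subset_closedBall hz), hθ'⟩
  · exact intervalIntegrable_const
  · exact Filter.Eventually.of_forall fun θ _ t ht => hder θ t ht

end Pool.Agent.Helper6.FB
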