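import Pool.Agent.Helper25.FB.Spec
import Pool.Agent.Helper6.FB.Param

/-!
# FB part OFF: off-diagonal blocks
-/

set_option autoImplicit false

namespace Pool.Agent.Helper25.FB

open Filter Topology

theorem off_g_diff (H : ℂ → ℂ → ℂ) (ρ B : ℝ) (hρ : 0 < ρ) (hB : ρ < B)
    (h2 : ∀ s, ρ < ‖s‖ → DifferentiableOn ℂ (fun t => H t s) {t | ρ < ‖t‖})
    (h3 : ContinuousOn (fun u : ℂ × ℂ => H u.1 u.2) {u | ρ < ‖u.1‖ ∧ ρ < ‖u.2‖}) (n : ℤ) :
    DifferentiableOn ℂ (fun t => Lc B (fun s => H t s) n) {t | ρ < ‖t‖} := by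
  have hB0 : 0 < B := lt_trans hρ hB
  have hcm : ∀ θ, ‖circleMap 0 B θ‖ = B := by
    intro θ
    rw [norm_circleMap_zero, abs_of_pos hB0]
  have hne : ∀ θ, circleMap 0 B θ ≠ 0 := by
    intro θ h0
    have := hcm θ
    rw [h0, norm_zero] at this
    linarith
  unfold Lc
  refine DifferentiableOn.const_mul ?_ _
  refine Pool.Agent.Helper6.FB.diff_param {t | ρ < ‖t‖}
    (isOpen_lt continuous_const continuous_norm) 0 (2 * Real.pi)
    (fun t θ => deriv (circleMap 0 B) θ • (H t (circleMap 0 B θ) *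
      (circleMap 0 B θ) ^ (-n - 1))) ?_ ?_
  · have hc1 : Continuous (fun u : ℂ × ℝ => deriv (circleMap 0 B) u.2) := by
      simp only [deriv_circleMap]
      fun_prop
    have hc2 : Continuous (fun u : ℂ × ℝ => (circleMap 0 B u.2) ^ (-n - 1)) := by
      apply Continuous.zpow₀ (by fun_prop)
      intro u
      exact Or.inl (hne u.2)
    have hc3 : ContinuousOn (fun u : ℂ × ℝ => H u.1 (circleMap 0 B u.2))
        ({t | ρ < ‖t‖} ×ˢ Set.univ) := by
      have hc4 : Continuous (fun u : ℂ × ℝ => ((u.1, circleMap 0 B u.2) : ℂ × ℂ)) := by fun_prop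
      refine h3.comp hc4.continuousOn ?_
      rintro ⟨t, θ⟩ ⟨ht, -⟩
      refine ⟨ht, ?_⟩
      show ρ < ‖circleMap 0 B θ‖
      rw [hcm]; exact hB
    exact hc1.continuousOn.smul (hc3.mul hc2.continuousOn)
  · intro θ
    have := h2 (circleMap 0 B θ) (by rw [hcm]; exact hB)
    have h5 := this.mul_const ((circleMap 0 B θ) ^ (-n - 1))
    exact h5.const_smul (deriv (circleMap 0 B) θ)

theorem off_thm (hLAU : S_LAU) (hFAC : S_FAC) : S_OFF := by
  intro H ρ a C hρ ha0 ha1 hC h1 h2 h3 h4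
  have h1a : 0 < 1 - a := by linarith
  refine ⟨max (ρ + 1) (2 * C / (1 - a) + 1), ?_⟩
  intro B hB
  have hBρ : ρ < B := by
    have := le_trans (le_max_left _ _) hB
    linarith
  have hB0 : 0 < B := lt_trans hρ hBρ
  have hBC : C < B * ((1 - a) / 2) := by
    have h5 : 2 * C / (1 - a) < B := by
      have := le_trans (le_max_right _ _) hB
      linarith
    rw [div_lt_iff₀ h1a] at h5
    linarith
  set δ : ℝ := (1 - a) / 2 with hδ
  have hδ0 : 0 < δ := by positivity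
  set c : ℝ := (1 + a) / 2 * B + C with hc
  have hc0 : 0 < c := by positivity
  have hcB : c < B := by
    rw [hc]
    have : B * δ = B - (1 + a) / 2 * B := by rw [hδ]; ring
    linarith
  set B' : ℝ := (1 + δ) * B with hB'
  have hB'ρ : ρ < B' := by rw [hB']; nlinarith
  have hB'0 : 0 < B' := lt_trans hρ hB'ρ
  obtain ⟨K, hK0, hK⟩ := hFAC ρ c B hρ.le hc0 hcB hBρ
  set g : ℕ → ℂ → ℂ := fun n t => (B : ℂ) ^ n * Lc B (fun s => H t s) n with hg
  set Mn : ℕ → ℝ := fun n => Real.exp (C * B' + C) * ((1 + δ) ^ n)⁻¹ with hMn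
  have hMn0 : ∀ n, 0 ≤ Mn n := fun n => by positivity
  have hgd : ∀ n, DifferentiableOn ℂ (g n) {t | ρ < ‖t‖} := fun n =>
    (off_g_diff H ρ B hρ hBρ h2 h3 n).const_mul _
  have hgb : ∀ n, ∀ t : ℂ, ρ < ‖t‖ → ‖g n t‖ ≤ Mn n * Real.exp (c * ‖t‖) := by
    intro n t ht
    have hL := hLAU (fun s => H t s) ρ hρ.le (h1 t)
    have e1 : Lc B (fun s => H t s) n = Lc B' (fun s => H t s) n := hL.1 B B' n hBρ hB'ρ
    have e2 := hL.2.1 B' (Real.exp (a * ‖t‖ * B' + C * ‖t‖ + C * B' + C)) n hB'ρ (by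
      intro s hs
      have := h4 t s ht (by rw [hs]; exact hB'ρ)
      rw [hs] at this
      exact this)
    rw [hg]
    simp only
    rw [norm_mul, e1, norm_pow, Complex.norm_real, Real.norm_eq_abs, abs_of_pos hB0]
    have e3 : B' ^ (-(n : ℤ)) = (B' ^ n)⁻¹ := by rw [zpow_neg, zpow_natCast]
    rw [e3] at e2
    have e4 : B ^ n * (B' ^ n)⁻¹ = ((1 + δ) ^ n)⁻¹ := by
      rw [hB', mul_pow, mul_inv]
      have : B ^ n ≠ 0 := by positivity
      field_simp
    have e5 : Real.exp (a * ‖t‖ * B' + C * ‖t‖ + C * B' + C) ≤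
        Real.exp (C * B' + C) * Real.exp (c * ‖t‖) := by
      rw [← Real.exp_add]
      apply Real.exp_le_exp.2
      have e6 : a * B' ≤ (1 + a) / 2 * B := by
        rw [hB', hδ]
        have : a * ((1 + (1 - a) / 2) * B) = (a + a * (1 - a) / 2) * B := by ring
        rw [this]
        apply mul_le_mul_of_nonneg_right _ hB0.le
        nlinarith
      have e7 : a * ‖t‖ * B' ≤ (1 + a) / 2 * B * ‖t‖ := by
        have := mul_le_mul_of_nonneg_right e6 (norm_nonneg t)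
        linarith
      have e8 : c * ‖t‖ = (1 + a) / 2 * B * ‖t‖ + C * ‖t‖ := by rw [hc]; ring
      rw [e8]
      linarith
    calc B ^ n * ‖Lc B' (fun s => H t s) n‖
        ≤ B ^ n * (Real.exp (a * ‖t‖ * B' + C * ‖t‖ + C * B' + C) * (B' ^ n)⁻¹) :=
          mul_le_mul_of_nonneg_left e2 (by positivity)
      _ = Real.exp (a * ‖t‖ * B' + C * ‖t‖ + C * B' + C) * (B ^ n * (B' ^ n)⁻¹) := by ring
      _ ≤ Real.exp (C * B' + C) * Real.exp (c * ‖t‖) * ((1 + δ) ^ n)⁻¹ := by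
          rw [e4]
          exact mul_le_mul_of_nonneg_right e5 (by positivity)
      _ = Mn n * Real.exp (c * ‖t‖) := by rw [hMn]; ring
  have hfin : ∀ n, Summable (fun l => ‖Mx B H l n‖) ∧ ∑' l, ‖Mx B H l n‖ ≤ Mn n * K := by
    intro n
    exact hK (g n) (Mn n) (hMn0 n) (hgd n) (hgb n)
  refine ⟨fun n => (hfin n).1, ?_⟩
  refine squeeze_zero (fun n => tsum_nonneg fun l => norm_nonneg _) (fun n => (hfin n).2) ?_
  have h5 : Tendsto (fun n : ℕ => ((1 + δ) ^ n)⁻¹) atTop (𝓝 0) := by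
    have h6 : Tendsto (fun n : ℕ => ((1 + δ)⁻¹) ^ n) atTop (𝓝 0) :=
      tendsto_pow_atTop_nhds_zero_of_lt_one (by positivity) (inv_lt_one_of_one_lt₀ (by linarith))
    simpa [inv_pow] using h6
  have h6 := (h5.const_mul (Real.exp (C * B' + C))).mul_const K
  simpa [hMn] using h6

end Pool.Agent.Helper25.FB
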